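import Pool.Agent.H.MP_7285af_lc.D

set_option autoImplicit false

namespace Pool.Agent.Results.MP_7285af_lc.Hard
open Pool.Agent.Lib.CX Pool.Agent.H.MP_7285af_lc

theorem result : NPHard C3ai ∧ NPHard C1ci := ⟨hard3, hard1⟩

end Pool.Agent.Results.MP_7285af_lc.Hard
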